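import Pool.Agent.Helper15.Rado.Global
import Pool.Agent.Helper14.RadoUB.Defs

/-!
# Rado's problem: from packings of a board by blocks and monomers to squares

The cell `(i, j)` of the board becomes the square `[2i, 2i + 2] × [2j, 2j + 2]`. A block cell
carries this square, enlarged by `e` on each side; a quarter cell carries its four unit quarters,
each enlarged by `e` on each side. Two members that touch the same corner, and two members of the
same cell, overlap.
-/

open MeasureTheory Set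
open scoped ENNReal

namespace Pool.Agent.Helper27.RadoUB

open Pool.Agent.Helper15.Rado Pool.Agent.Helper14.RadoUB

/-- offset of the item in the first coordinate -/
def ox (big : ℕ → ℕ → Bool) (i j : ℕ) (k : Fin 4) : ℕ := if big i j = true then 0 else k.val % 2

/-- offset of the item in the second coordinate -/
def oy (big : ℕ → ℕ → Bool) (i j : ℕ) (k : Fin 4) : ℕ := if big i j = true then 0 else k.val / 2

/-- side of the item -/
def si (big : ℕ → ℕ → Bool) (i j : ℕ) : ℕ := if big i j = true then 2 else 1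

/-- the item of the cell `(i, j)` at the corner `k` -/
noncomputable def item (big : ℕ → ℕ → Bool) (e : ℝ) (he : 0 < e) (i j : ℕ) (k : Fin 4) : Sq where
  x := ((2 * i + ox big i j k : ℕ) : ℝ) - e
  y := ((2 * j + oy big i j k : ℕ) : ℝ) - e
  s := (si big i j : ℝ) + 2 * e
  pos := by positivity

variable {big : ℕ → ℕ → Bool} {e : ℝ} {he : 0 < e}

theorem ox_le (i j : ℕ) (k : Fin 4) : ox big i j k ≤ 1 := by
  unfold ox; split_ifs <;> omega

theorem oy_le (i j : ℕ) (k : Fin 4) : oy big i j k ≤ 1 := by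
  unfold oy; split_ifs <;> omega

theorem item_inj {i j i' j' : ℕ} {k k' : Fin 4}
    (h : item big e he i j k = item big e he i' j' k') :
    i = i' ∧ j = j' ∧ ox big i j k = ox big i' j' k' ∧ oy big i j k = oy big i' j' k' := by
  have h1 := congrArg Sq.x h
  have h2 := congrArg Sq.y h
  simp only [item, sub_left_inj, Nat.cast_inj] at h1 h2
  have a1 := ox_le (big := big) i j k
  have a2 := ox_le (big := big) i' j' k'
  have b1 := oy_le (big := big) i j k
  have b2 := oy_le (big := big) i' j' k'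
  omega

theorem item_blk {i j : ℕ} (h : big i j = true) (k l : Fin 4) :
    item big e he i j k = item big e he i j l := by
  simp [item, ox, oy, h]

theorem item_quarter {i j : ℕ} (h : big i j = false) {k l : Fin 4}
    (hkl : item big e he i j k = item big e he i j l) : k = l := by
  obtain ⟨-, -, h1, h2⟩ := item_inj hkl
  simp only [ox, oy, h, Bool.false_eq_true, if_false] at h1 h2
  ext
  omega

theorem ox_bounds (i j : ℕ) (k : Fin 4) : 2 * i + ox big i j k ≤ 2 * (i + k.val % 2) ∧
    2 * (i + k.val % 2) ≤ 2 * i + ox big i j k + si big i j := by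
  unfold ox si; split_ifs <;> omega

theorem oy_bounds (i j : ℕ) (k : Fin 4) : 2 * j + oy big i j k ≤ 2 * (j + k.val / 2) ∧
    2 * (j + k.val / 2) ≤ 2 * j + oy big i j k + si big i j := by
  unfold oy si; split_ifs <;> omega

/-- items at the same corner overlap -/
theorem ov_corner {i j i' j' : ℕ} {k k' : Fin 4} (hx : i + k.val % 2 = i' + k'.val % 2)
    (hy : j + k.val / 2 = j' + k'.val / 2) :
    ov (item big e he i j k) (item big e he i' j' k') := by
  obtain ⟨a1, a2⟩ := ox_bounds (big := big) i j k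
  obtain ⟨a3, a4⟩ := ox_bounds (big := big) i' j' k'
  obtain ⟨b1, b2⟩ := oy_bounds (big := big) i j k
  obtain ⟨b3, b4⟩ := oy_bounds (big := big) i' j' k'
  have c1 : 2 * i + ox big i j k ≤ 2 * i' + ox big i' j' k' + si big i' j' := by omega
  have c2 : 2 * i' + ox big i' j' k' ≤ 2 * i + ox big i j k + si big i j := by omega
  have c3 : 2 * j + oy big i j k ≤ 2 * j' + oy big i' j' k' + si big i' j' := by omega
  have c4 : 2 * j' + oy big i' j' k' ≤ 2 * j + oy big i j k + si big i j := by omega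
  have d1 : ((2 * i + ox big i j k : ℕ) : ℝ) ≤ ((2 * i' + ox big i' j' k' : ℕ) : ℝ) +
    (si big i' j' : ℝ) := by exact_mod_cast c1
  have d2 : ((2 * i' + ox big i' j' k' : ℕ) : ℝ) ≤ ((2 * i + ox big i j k : ℕ) : ℝ) +
    (si big i j : ℝ) := by exact_mod_cast c2
  have d3 : ((2 * j + oy big i j k : ℕ) : ℝ) ≤ ((2 * j' + oy big i' j' k' : ℕ) : ℝ) +
    (si big i' j' : ℝ) := by exact_mod_cast c3
  have d4 : ((2 * j' + oy big i' j' k' : ℕ) : ℝ) ≤ ((2 * j + oy big i j k : ℕ) : ℝ) +
    (si big i j : ℝ) := by exact_mod_cast c4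
  simp only [ov, item]
  refine ⟨⟨?_, ?_⟩, ⟨?_, ?_⟩⟩ <;> linarith

/-- items of the same cell overlap -/
theorem ov_cell {i j : ℕ} {k k' : Fin 4} :
    ov (item big e he i j k) (item big e he i j k') := by
  by_cases hb : big i j = true
  · rw [item_blk hb k' k]
    exact ov_self _
  · have c1 : 2 * i + ox big i j k ≤ 2 * i + ox big i j k' + si big i j := by
      simp only [ox, si, if_neg hb]; omega
    have c2 : 2 * i + ox big i j k' ≤ 2 * i + ox big i j k + si big i j := by
      simp only [ox, si, if_neg hb]; omega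
    have c3 : 2 * j + oy big i j k ≤ 2 * j + oy big i j k' + si big i j := by
      simp only [oy, si, if_neg hb]; omega
    have c4 : 2 * j + oy big i j k' ≤ 2 * j + oy big i j k + si big i j := by
      simp only [oy, si, if_neg hb]; omega
    have d1 : ((2 * i + ox big i j k : ℕ) : ℝ) ≤ ((2 * i + ox big i j k' : ℕ) : ℝ) +
      (si big i j : ℝ) := by exact_mod_cast c1
    have d2 : ((2 * i + ox big i j k' : ℕ) : ℝ) ≤ ((2 * i + ox big i j k : ℕ) : ℝ) +
      (si big i j : ℝ) := by exact_mod_cast c2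
    have d3 : ((2 * j + oy big i j k : ℕ) : ℝ) ≤ ((2 * j + oy big i j k' : ℕ) : ℝ) +
      (si big i j : ℝ) := by exact_mod_cast c3
    have d4 : ((2 * j + oy big i j k' : ℕ) : ℝ) ≤ ((2 * j + oy big i j k : ℕ) : ℝ) +
      (si big i j : ℝ) := by exact_mod_cast c4
    simp only [ov, item]
    refine ⟨⟨?_, ?_⟩, ⟨?_, ?_⟩⟩ <;> linarith

theorem eq_of_ov {G : Finset Sq} (hG : NonOv G) {P Q : Sq} (hP : P ∈ G) (hQ : Q ∈ G)
    (h : ov P Q) : P = Q := by
  by_contra hne
  have h1 := hG P hP Q hQ hne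
  rw [interior_set, interior_set, Set.disjoint_left] at h1
  obtain ⟨⟨a1, a2⟩, ⟨b1, b2⟩⟩ := h
  have hp := P.pos
  have hq := Q.pos
  obtain ⟨x, hx1, hx2⟩ := exists_between (show max P.x Q.x < min (P.x + P.s) (Q.x + Q.s) from
    max_lt (lt_min (by linarith) a1) (lt_min a2 (by linarith)))
  obtain ⟨y, hy1, hy2⟩ := exists_between (show max P.y Q.y < min (P.y + P.s) (Q.y + Q.s) from
    max_lt (lt_min (by linarith) b1) (lt_min b2 (by linarith)))
  rw [max_lt_iff] at hx1 hy1
  rw [lt_min_iff] at hx2 hy2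
  exact h1 (a := (x, y)) ⟨⟨hx1.1, hx2.1⟩, ⟨hy1.1, hy2.1⟩⟩ ⟨⟨hx1.2, hx2.2⟩, ⟨hy1.2, hy2.2⟩⟩

theorem bool4 : ∀ b1 b2 b3 b4 : Bool, (b1 = true → b2 = true → False) →
    (b1 = true → b3 = true → False) → (b1 = true → b4 = true → False) →
    (b2 = true → b3 = true → False) → (b2 = true → b4 = true → False) →
    (b3 = true → b4 = true → False) → b1.toNat + b2.toNat + b3.toNat + b4.toNat ≤ 1 := by
  intro b1 b2 b3 b4
  cases b1 <;> cases b2 <;> cases b3 <;> cases b4 <;> simp

theorem bool2 : ∀ b1 b2 : Bool, (b1 = true → b2 = true → False) →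
    b1.toNat + b2.toNat ≤ 1 := by
  intro b1 b2
  cases b1 <;> cases b2 <;> simp

/-- the packing of a nonoverlapping subfamily -/
noncomputable def pack (big : ℕ → ℕ → Bool) (e : ℝ) (he : 0 < e) (M : ℕ) (G : Finset Sq)
    (hG : NonOv G) : Packing big M := by
  classical
  have key : ∀ i j k i' j' k', i + (k : Fin 4).val % 2 = i' + (k' : Fin 4).val % 2 →
      j + k.val / 2 = j' + k'.val / 2 → (i ≠ i' ∨ j ≠ j') →
      decide (i < M ∧ j < M ∧ item big e he i j k ∈ G) = true →
      decide (i' < M ∧ j' < M ∧ item big e he i' j' k' ∈ G) = true → False := by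
    intro i j k i' j' k' hx hy hne h1 h2
    simp only [decide_eq_true_eq] at h1 h2
    have h3 := item_inj (eq_of_ov hG h1.2.2 h2.2.2 (ov_corner hx hy))
    omega
  exact
  { c := fun i j k => decide (i < M ∧ j < M ∧ item big e he i j k ∈ G)
    out := by
      intro i j k h
      rw [decide_eq_false_iff_not]
      omega
    blk := by
      intro i j hb k l
      rw [item_blk hb k l]
    mono := by
      intro i j hb k l h1 h2
      simp only [decide_eq_true_eq] at h1 h2
      exact item_quarter hb (eq_of_ov hG h1.2.2 h2.2.2 ov_cell)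
    inner := by
      intro i j
      have k1 := key i j 3 (i + 1) j 2 (by simp) (by simp) (by omega)
      have k2 := key i j 3 i (j + 1) 1 (by simp) (by simp) (by omega)
      have k3 := key i j 3 (i + 1) (j + 1) 0 (by simp) (by simp) (by omega)
      have k4 := key (i + 1) j 2 i (j + 1) 1 (by simp) (by simp) (by omega)
      have k5 := key (i + 1) j 2 (i + 1) (j + 1) 0 (by simp) (by simp) (by omega)
      have k6 := key i (j + 1) 1 (i + 1) (j + 1) 0 (by simp) (by simp) (by omega)
      exact bool4 _ _ _ _ k1 k2 k3 k4 k5 k6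
    left := by
      intro j
      have k1 := key 0 j 2 0 (j + 1) 0 (by simp) (by simp) (by omega)
      exact bool2 _ _ k1
    bottom := by
      intro i
      have k1 := key i 0 1 (i + 1) 0 0 (by simp) (by simp) (by omega)
      exact bool2 _ _ k1 }

theorem area_le_sum (G : Finset Sq) : area G ≤ ∑ Q ∈ G, Q.s ^ 2 := by
  unfold area
  apply ENNReal.toReal_le_of_le_ofReal (Finset.sum_nonneg fun _ _ => sq_nonneg _)
  calc volume (⋃ Q ∈ G, Q.set) ≤ ∑ Q ∈ G, volume Q.set := measure_biUnion_finset_le _ _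
    _ = ∑ Q ∈ G, ENNReal.ofReal (Q.s ^ 2) := by
        apply Finset.sum_congr rfl
        intro Q _
        rw [Sq.set, Measure.volume_eq_prod, Measure.prod_prod, Real.volume_Icc, Real.volume_Icc,
          sq, ENNReal.ofReal_mul Q.pos.le]
        simp
    _ = _ := (ENNReal.ofReal_sum_of_nonneg fun _ _ => sq_nonneg _).symm

/-- the family -/
noncomputable def fam (big : ℕ → ℕ → Bool) (e : ℝ) (he : 0 < e) (M : ℕ) : Finset Sq :=
  (Finset.range M ×ˢ Finset.range M ×ˢ (Finset.univ : Finset (Fin 4))).image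
    fun x => item big e he x.1 x.2.1 x.2.2

theorem cover (big : ℕ → ℕ → Bool) (e : ℝ) (he : 0 < e) (M : ℕ) :
    Ico (0 : ℝ) (2 * M) ×ˢ Ico (0 : ℝ) (2 * M) ⊆ ⋃ Q ∈ fam big e he M, Q.set := by
  rintro ⟨x, y⟩ ⟨⟨hx0, hx1⟩, ⟨hy0, hy1⟩⟩
  simp only at hx0 hx1 hy0 hy1
  have hX := Nat.floor_le hx0
  have hX' := Nat.lt_floor_add_one x
  have hY := Nat.floor_le hy0
  have hY' := Nat.lt_floor_add_one y
  have hXM : ⌊x⌋₊ < 2 * M := by
    rw [Nat.floor_lt hx0]; push_cast; exact hx1
  have hYM : ⌊y⌋₊ < 2 * M := by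
    rw [Nat.floor_lt hy0]; push_cast; exact hy1
  generalize ⌊x⌋₊ = X at *
  generalize ⌊y⌋₊ = Y at *
  have hk : (Y % 2) * 2 + X % 2 < 4 := by omega
  simp only [mem_iUnion]
  refine ⟨item big e he (X / 2) (Y / 2) ⟨(Y % 2) * 2 + X % 2, hk⟩, ?_, ?_⟩
  · apply Finset.mem_image.2
    exact ⟨(X / 2, Y / 2, ⟨(Y % 2) * 2 + X % 2, hk⟩), by simp; omega, rfl⟩
  · have a1 : 2 * (X / 2) + ox big (X / 2) (Y / 2) ⟨(Y % 2) * 2 + X % 2, hk⟩ ≤ X := by
      simp only [ox]; split_ifs <;> omega
    have a2 : X + 1 ≤ 2 * (X / 2) + ox big (X / 2) (Y / 2) ⟨(Y % 2) * 2 + X % 2, hk⟩ +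
        si big (X / 2) (Y / 2) := by
      simp only [ox, si]; split_ifs <;> omega
    have b1 : 2 * (Y / 2) + oy big (X / 2) (Y / 2) ⟨(Y % 2) * 2 + X % 2, hk⟩ ≤ Y := by
      simp only [oy]; split_ifs <;> omega
    have b2 : Y + 1 ≤ 2 * (Y / 2) + oy big (X / 2) (Y / 2) ⟨(Y % 2) * 2 + X % 2, hk⟩ +
        si big (X / 2) (Y / 2) := by
      simp only [oy, si]; split_ifs <;> omega
    have a1' : ((2 * (X / 2) + ox big (X / 2) (Y / 2) ⟨(Y % 2) * 2 + X % 2, hk⟩ : ℕ) : ℝ) ≤ X := by
      exact_mod_cast a1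
    have a2' : (X : ℝ) + 1 ≤ ((2 * (X / 2) + ox big (X / 2) (Y / 2) ⟨(Y % 2) * 2 + X % 2, hk⟩ : ℕ)
        : ℝ) + (si big (X / 2) (Y / 2) : ℝ) := by
      exact_mod_cast a2
    have b1' : ((2 * (Y / 2) + oy big (X / 2) (Y / 2) ⟨(Y % 2) * 2 + X % 2, hk⟩ : ℕ) : ℝ) ≤ Y := by
      exact_mod_cast b1
    have b2' : (Y : ℝ) + 1 ≤ ((2 * (Y / 2) + oy big (X / 2) (Y / 2) ⟨(Y % 2) * 2 + X % 2, hk⟩ : ℕ)
        : ℝ) + (si big (X / 2) (Y / 2) : ℝ) := by
      exact_mod_cast b2
    simp only [Sq.set, item]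
    refine ⟨⟨?_, ?_⟩, ⟨?_, ?_⟩⟩ <;> simp only <;> linarith

theorem le_area (big : ℕ → ℕ → Bool) (e : ℝ) (he : 0 < e) (M : ℕ) :
    4 * (M : ℝ) ^ 2 ≤ area (fam big e he M) := by
  unfold area
  have h := measure_mono (μ := volume) (cover big e he M)
  rw [Measure.volume_eq_prod, Measure.prod_prod, Real.volume_Ico,
    ← ENNReal.ofReal_mul (by simp)] at h
  have h2 := ENNReal.toReal_mono (volume_ne_top _) h
  rw [ENNReal.toReal_ofReal (by rw [sub_zero]; positivity)] at h2
  nlinarith [h2]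

theorem sum_le (e : ℝ) (he : 0 < e) (M : ℕ) {G : Finset Sq}
    (hsub : G ⊆ fam big e he M) (hG : NonOv G) :
    ∑ Q ∈ G, Q.s ^ 2 ≤ (1 + 2 * e) ^ 2 * ((pack big e he M G hG).weight : ℝ) := by
  classical
  set J : Finset (ℕ × ℕ × Fin 4) :=
    (Finset.range M ×ˢ Finset.range M ×ˢ (Finset.univ : Finset (Fin 4))).filter
      fun x => item big e he x.1 x.2.1 x.2.2 ∈ G ∧ (big x.1 x.2.1 = true → x.2.2 = 0) with hJ
  have hsurj : G ⊆ J.image fun x => item big e he x.1 x.2.1 x.2.2 := by
    intro Q hQ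
    obtain ⟨⟨i, j, k⟩, hx, rfl⟩ := Finset.mem_image.1 (hsub hQ)
    by_cases hb : big i j = true
    · refine Finset.mem_image.2 ⟨(i, j, 0), ?_, item_blk hb 0 k⟩
      rw [hJ, Finset.mem_filter]
      refine ⟨by simpa using hx, ?_, fun _ => rfl⟩
      simp only at hQ ⊢
      rwa [item_blk hb 0 k]
    · refine Finset.mem_image.2 ⟨(i, j, k), ?_, rfl⟩
      rw [hJ, Finset.mem_filter]
      exact ⟨hx, hQ, fun h => absurd h hb⟩
  have hinj : Set.InjOn (fun x : ℕ × ℕ × Fin 4 => item big e he x.1 x.2.1 x.2.2) J := by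
    rintro ⟨i, j, k⟩ hx ⟨i', j', k'⟩ hx' h
    simp only at h
    have hx := (Finset.mem_filter.1 hx).2.2
    have hx' := (Finset.mem_filter.1 hx').2.2
    simp only at hx hx'
    obtain ⟨rfl, rfl, -, -⟩ := item_inj h
    by_cases hb : big i j = true
    · rw [hx hb, hx' hb]
    · rw [item_quarter (by simpa using hb) h]
  calc ∑ Q ∈ G, Q.s ^ 2 ≤ ∑ Q ∈ J.image fun x => item big e he x.1 x.2.1 x.2.2, Q.s ^ 2 :=
        Finset.sum_le_sum_of_subset_of_nonneg hsurj fun _ _ _ => sq_nonneg _
    _ = ∑ x ∈ J, (item big e he x.1 x.2.1 x.2.2).s ^ 2 := Finset.sum_image hinj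
    _ = ∑ i ∈ Finset.range M, ∑ j ∈ Finset.range M, ∑ k : Fin 4,
        (if item big e he i j k ∈ G ∧ (big i j = true → k = 0) then (item big e he i j k).s ^ 2
          else 0) := by
        rw [hJ, Finset.sum_filter, Finset.sum_product]
        apply Finset.sum_congr rfl
        intro i _
        rw [Finset.sum_product]
    _ ≤ ∑ i ∈ Finset.range M, ∑ j ∈ Finset.range M, (1 + 2 * e) ^ 2 *
        ∑ k : Fin 4, ((((pack big e he M G hG).c i j k).toNat : ℕ) : ℝ) := by
        apply Finset.sum_le_sum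
        intro i hi
        apply Finset.sum_le_sum
        intro j hj
        have hi := Finset.mem_range.1 hi
        have hj := Finset.mem_range.1 hj
        have hc : ∀ k, (pack big e he M G hG).c i j k = decide (item big e he i j k ∈ G) := by
          intro k
          show decide (i < M ∧ j < M ∧ item big e he i j k ∈ G) = _
          simp [hi, hj]
        simp only [hc]
        have h0 : (0 : ℝ) ≤ (1 + 2 * e) ^ 2 := sq_nonneg _
        by_cases hb : big i j = true
        · have hk : ∀ k, item big e he i j k = item big e he i j 0 := fun k => item_blk hb k 0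
          simp only [hk, hb, true_implies]
          have hs : (item big e he i j 0).s = 2 + 2 * e := by simp [item, si, hb]
          rw [hs]
          by_cases hm : item big e he i j 0 ∈ G
          · simp [hm]
            nlinarith
          · simp [hm]
        · have hs : ∀ k, (item big e he i j k).s = 1 + 2 * e := by
            intro k; simp [item, si, hb]
          simp only [hs, hb]
          rw [Finset.mul_sum]
          apply Finset.sum_le_sum
          intro k _
          by_cases hm : item big e he i j k ∈ G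
          · simp [hm]
          · simp [hm]
    _ = _ := by
        rw [Packing.weight]
        push_cast
        rw [Finset.mul_sum]
        apply Finset.sum_congr rfl
        intro i _
        rw [Finset.mul_sum]

theorem reduction (big : ℕ → ℕ → Bool) (p q C m : ℕ) (hq : 0 < q) (hm : 0 < m)
    (h : ∀ N, ∀ P : Packing big (m * N), q * P.weight ≤ p * (m * N) ^ 2 + C * (m * N)) :
    c2 ≤ (p : ℝ) / (4 * q) := by
  have hq' : (0 : ℝ) < q := by exact_mod_cast hq
  have hm' : (1 : ℝ) ≤ m := by exact_mod_cast hm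
  apply Real.sSup_le _ (by positivity)
  rintro c ⟨hc0, hc⟩
  have main : ∀ N : ℕ, 4 * c * q ≤ (1 + 2 * (1 / ((N : ℝ) + 1))) ^ 2 *
      (p + C * (1 / ((N : ℝ) + 1))) := by
    intro N
    have he : (0 : ℝ) < 1 / ((N : ℝ) + 1) := by positivity
    generalize hE : 1 / ((N : ℝ) + 1) = e at he ⊢
    obtain ⟨G, hsub, hno, hle⟩ := hc (fam big e he (m * (N + 1)))
    have h1 := le_area big e he (m * (N + 1))
    have h2 := area_le_sum G
    have h3 := sum_le e he (m * (N + 1)) hsub hno
    have h4 := h (N + 1) (pack big e he (m * (N + 1)) G hno)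
    have h4' : (q : ℝ) * ((pack big e he (m * (N + 1)) G hno).weight : ℝ) ≤
        p * (m * (N + 1)) ^ 2 + C * (m * (N + 1)) := by exact_mod_cast h4
    push_cast at h1
    set W : ℝ := ((pack big e he (m * (N + 1)) G hno).weight : ℝ) with hW
    set R : ℝ := (m : ℝ) * ((N : ℝ) + 1) with hR
    have hR0 : 0 < R := by positivity
    have hRe : 1 ≤ R * e := by
      rw [← hE, hR]
      rw [mul_assoc, mul_one_div_cancel (by positivity : (N : ℝ) + 1 ≠ 0)]
      linarith
    have h5 : c * (4 * R ^ 2) ≤ (1 + 2 * e) ^ 2 * W :=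
      (mul_le_mul_of_nonneg_left h1 hc0).trans (hle.trans (h2.trans h3))
    have h6 : (C : ℝ) * R ≤ C * (R ^ 2 * e) := by
      apply mul_le_mul_of_nonneg_left _ (by positivity)
      nlinarith
    have h7 : c * (4 * R ^ 2) * q ≤ (1 + 2 * e) ^ 2 * (p * R ^ 2 + C * (R ^ 2 * e)) := by
      calc c * (4 * R ^ 2) * q ≤ (1 + 2 * e) ^ 2 * W * q :=
            mul_le_mul_of_nonneg_right h5 hq'.le
        _ = (1 + 2 * e) ^ 2 * (q * W) := by ring
        _ ≤ (1 + 2 * e) ^ 2 * (p * R ^ 2 + C * (R ^ 2 * e)) := by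
            apply mul_le_mul_of_nonneg_left _ (sq_nonneg _)
            linarith
    have h8 : (4 * c * q) * R ^ 2 ≤ ((1 + 2 * e) ^ 2 * (p + C * e)) * R ^ 2 := by
      calc (4 * c * q) * R ^ 2 = c * (4 * R ^ 2) * q := by ring
        _ ≤ _ := h7
        _ = _ := by ring
    exact le_of_mul_le_mul_right h8 (by positivity)
  have lim : Filter.Tendsto (fun N : ℕ => (1 + 2 * (1 / ((N : ℝ) + 1))) ^ 2 *
      (p + C * (1 / ((N : ℝ) + 1)))) Filter.atTop (nhds ((1 + 2 * (0 : ℝ)) ^ 2 * ((p : ℝ) + C * (0 : ℝ)))) := by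
    have h0 := tendsto_one_div_add_atTop_nhds_zero_nat (𝕜 := ℝ)
    exact ((tendsto_const_nhds.add (tendsto_const_nhds.mul h0)).pow 2).mul
      (tendsto_const_nhds.add (tendsto_const_nhds.mul h0))
  have h9 := ge_of_tendsto' lim main
  rw [le_div_iff₀ (by positivity)]
  linarith

end Pool.Agent.Helper27.RadoUB
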